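import Pool.Agent.Y331.EP.Trans
import Pool.Agent.H779R2.To.TCov

/-!
# Expansive factors of Anosov diffeomorphisms with global product structure
-/

set_option autoImplicit false
set_option linter.unusedSectionVars false

open Filter Topology Set
open scoped Manifold ContDiff

namespace Pool.Agent.X183.EFac

open Pool.Agent.H721R2 Pool.Agent.H789R2.AN Pool.Agent.TH289 Pool.Agent.TH289.K
open Pool.Agent.TH289.L Pool.Agent.Y331.EP

/-- the deck homeomorphisms of a map -/
def DeckG {Z X : Type*} [TopologicalSpace Z] (P : Z → X) : Subgroup (Z ≃ₜ Z) where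
  carrier := {φ | ∀ z, P (φ z) = P z}
  mul_mem' := by
    intro a b ha hb z
    show P (a (b z)) = P z
    rw [ha, hb]
  one_mem' := fun z => rfl
  inv_mem' := by
    intro a ha z
    have h1 := ha (a.symm z)
    rw [a.apply_symm_apply] at h1
    exact h1.symm

/-- the action of the homeomorphisms -/
@[implicit_reducible] def hAct (Z : Type*) [TopologicalSpace Z] : MulAction (Z ≃ₜ Z) Z where
  smul φ z := φ z
  one_smul _ := rfl
  mul_smul _ _ _ := rfl

/-- a composition of coverings of a simply connected space is a covering, and its fibres are the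
orbits of its deck transformations -/
theorem comp_cov {Z M X : Type*} [TopologicalSpace Z] [TopologicalSpace M] [TopologicalSpace X]
    [SimplyConnectedSpace Z] [LocallyPathConnectedSpace Z] {q : Z → M} (hq : IsCoveringMap q)
    {h : M → X} (hh : IsCoveringMap h) (hqs : Function.Surjective q)
    (hhs : Function.Surjective h) :
    IsCoveringMap (h ∘ q) ∧ ∀ x y, h (q x) = h (q y) →
      ∃ φ : Z ≃ₜ Z, φ x = y ∧ ∀ z, h (q (φ z)) = h (q z) := by
  have hpc : PathConnectedSpace Z := inferInstance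
  have hlift : ∀ x y, h (q x) = h (q y) →
      ∃ φ : C(Z, Z), φ x = y ∧ ∀ z, h (q (φ z)) = h (q z) := by
    intro x y hxy
    let P : C(Z, X) := ⟨h ∘ q, hh.continuous.comp hq.continuous⟩
    obtain ⟨u, ⟨hu0, hu⟩, -⟩ := hh.existsUnique_continuousMap_lifts P x (q y) hxy.symm
    obtain ⟨φ, ⟨hφ0, hφ⟩, -⟩ := hq.existsUnique_continuousMap_lifts u x y hu0.symm
    refine ⟨φ, hφ0, fun z => ?_⟩
    have e1 : q (φ z) = u z := congrFun hφ z
    have e2 : h (u z) = h (q z) := congrFun hu z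
    rw [e1, e2]
  have hlq : IsLocalHomeomorph q := hq.isLocalHomeomorph
  have hlh : IsLocalHomeomorph h := hh.isLocalHomeomorph
  have hl : IsLocalHomeomorph (h ∘ q) := hlh.comp hlq
  -- uniqueness
  have huniq : ∀ φ ψ : C(Z, Z), (∀ z, h (q (φ z)) = h (q z)) → (∀ z, h (q (ψ z)) = h (q z)) →
      ∀ x, φ x = ψ x → φ = ψ := by
    intro φ ψ h1 h2 x hx
    have e1 : (fun z => q (φ z)) = fun z => q (ψ z) := by
      refine hh.eq_of_comp_eq (hq.continuous.comp φ.continuous) (hq.continuous.comp ψ.continuous)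
        (funext fun z => ?_) x (by show q (φ x) = q (ψ x); rw [hx])
      show h (q (φ z)) = h (q (ψ z))
      rw [h1, h2]
    have e2 : (φ : Z → Z) = ψ := hq.eq_of_comp_eq φ.continuous ψ.continuous e1 x hx
    exact DFunLike.coe_injective e2
  have hdeck : ∀ x y, h (q x) = h (q y) →
      ∃ φ : Z ≃ₜ Z, φ x = y ∧ ∀ z, h (q (φ z)) = h (q z) := by
    intro x y hxy
    obtain ⟨φ, h1, h2⟩ := hlift x y hxy
    obtain ⟨ψ, h3, h4⟩ := hlift y x hxy.symm
    have e1 : φ.comp ψ = ContinuousMap.id Z := by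
      refine huniq _ _ (fun z => ?_) (fun z => rfl) y ?_
      · show h (q (φ (ψ z))) = _
        rw [h2, h4]
      · show φ (ψ y) = y
        rw [h3, h1]
    have e2 : ψ.comp φ = ContinuousMap.id Z := by
      refine huniq _ _ (fun z => ?_) (fun z => rfl) x ?_
      · show h (q (ψ (φ z))) = _
        rw [h4, h2]
      · show ψ (φ x) = x
        rw [h1, h3]
    exact ⟨⟨⟨φ, ψ, fun z => DFunLike.congr_fun e2 z, fun z => DFunLike.congr_fun e1 z⟩,
      φ.continuous, ψ.continuous⟩, h1, h2⟩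
  refine ⟨?_, hdeck⟩
  have hsur : Function.Surjective (h ∘ q) := hhs.comp hqs
  have hquot : IsQuotientMap (h ∘ q) :=
    hl.isOpenMap.isQuotientMap hl.continuous hsur
  let _ := hAct Z
  have hQ : IsQuotientCoveringMap (h ∘ q) (DeckG (h ∘ q)) := by
    refine { hquot with
      continuous_const_smul := fun g => g.1.continuous
      apply_eq_iff_mem_orbit := ?_
      disjoint := ?_ }
    · intro e₁ e₂
      constructor
      · intro he
        obtain ⟨φ, h1, h2⟩ := hdeck e₂ e₁ he.symm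
        exact ⟨⟨φ, h2⟩, h1⟩
      · rintro ⟨g, rfl⟩
        exact g.2 e₂
    · intro e
      obtain ⟨U, hU, hi⟩ := isLocallyInjective_iff_nhds.1 hl.isLocallyInjective e
      refine ⟨U, hU, ?_⟩
      rintro g ⟨_, ⟨u, hu, rfl⟩, hu'⟩
      have e1 : g.1 u = u := hi hu' hu (g.2 u)
      have e2 := huniq ⟨g.1, g.1.continuous⟩ (ContinuousMap.id Z) g.2 (fun z => rfl) u e1
      refine Subtype.ext (Homeomorph.ext fun z => ?_)
      exact DFunLike.congr_fun e2 z
  exact hQ.isCoveringMap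

section manifold

variable {E : Type*} [NormedAddCommGroup E] [NormedSpace ℝ E] [FiniteDimensional ℝ E]

universe u

variable {M : Type u} [MetricSpace M] [CompactSpace M] [ConnectedSpace M]
    [ChartedSpace E M] [IsManifold 𝓘(ℝ, E) ∞ M]

/-- expansive factors of Anosov diffeomorphisms with global product structure -/
theorem man_exp_range {E' : Type*} [NormedAddCommGroup E'] [NormedSpace ℝ E']
    [FiniteDimensional ℝ E'] {M' : Type*} [MetricSpace M'] [CompactSpace M']
    [ConnectedSpace M'] [ChartedSpace E' M']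
    (f : Diffeomorph 𝓘(ℝ, E) 𝓘(ℝ, E) M M 1)
    (Es Eu : ∀ x : M, Submodule ℝ (TangentSpace 𝓘(ℝ, E) x)) (hA : IsAnosov f Es Eu)
    (hG : GPS f.toHomeomorph) (g : M' ≃ₜ M') (hg : Expansive g)
    (hdim : Module.finrank ℝ E' ≤ Module.finrank ℝ E)
    (h : M → M') (hc : Continuous h) (hh : ∀ x, h (f x) = g (h x)) :
    List.TFAE [Dynamics.coverEntropy f univ ≤ Dynamics.coverEntropy g (range h),
      ∀ y, (h ⁻¹' {y}).Countable,
      ∃ B : ℕ, ∀ x, {y | h y = h x ∧ Asym f x y ∧ Asym f.symm x y}.encard ≤ B,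
      ∃ p ∈ Function.periodicPts f, (h ⁻¹' {h p} ∩ {y | Asym f p y}).Finite ∨
        (h ⁻¹' {h p} ∩ {y | Asym f.symm p y}).Finite,
      IsCoveringMap h,
      IsCoveringMap h ∧ Function.Surjective h ∧ (∀ y, (h ⁻¹' {y}).Finite) ∧ GPS g ∧
        TopTransitive g ∧ ∃ π : E → M', IsCoveringMap π ∧ Function.Surjective π] := by
  have hT := (man_self f Es Eu hA hG).1
  obtain ⟨eg, hGe⟩ := ex_of_expansive hg
  obtain ⟨ef, hE⟩ := ex_of_expansive (expansive_of_anosov f Es Eu hA)
  have key := abs_range hE (man_shad f Es Eu hA) (show TT f.toHomeomorph from hT) hGe hc hh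
  have k14 := key.out 0 3
  have k24 := key.out 1 3
  have k46 : (∃ p ∈ Function.periodicPts f, (h ⁻¹' {h p} ∩ {y | Asym f p y}).Finite ∨
        (h ⁻¹' {h p} ∩ {y | Asym f.symm p y}).Finite) →
      IsCoveringMap h ∧ Function.Surjective h ∧ (∀ y, (h ⁻¹' {y}).Finite) ∧ GPS g ∧
        TopTransitive g ∧ ∃ π : E → M', IsCoveringMap π ∧ Function.Surjective π := by
    rintro ⟨p, hp, hfin⟩
    obtain ⟨h1, h2, h3, h4, h5⟩ := man_exp_one_cover f Es Eu hA hG g hg h hc hh hp hfin hdim
    obtain ⟨q, hq, hqs⟩ := (man_self f Es Eu hA hG).2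
    exact ⟨h1, h2, h3, h4, h5, h ∘ q, (comp_cov hq h1 hqs h2).1, h2.comp hqs⟩
  have kN4 : (∃ N : ℕ, ∀ y, (h ⁻¹' {y}).encard ≤ N) →
      ∃ p ∈ Function.periodicPts f, (h ⁻¹' {h p} ∩ {y | Asym f p y}).Finite ∨
        (h ⁻¹' {h p} ∩ {y | Asym f.symm p y}).Finite := by
    rintro ⟨N, hN⟩
    obtain ⟨p, hp⟩ := man_pp f Es Eu hA hT
    exact ⟨p, hp, Or.inl ((Set.finite_of_encard_le_coe (hN _)).subset inter_subset_left)⟩
  have kc : IsCoveringMap h → ∃ N : ℕ, ∀ y, (h ⁻¹' {y}).encard ≤ N := bounded_of_cover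
  tfae_have 1 → 4 := fun h1 => kN4 (k14.1 h1)
  tfae_have 2 → 4 := fun h1 => kN4 (k24.1 h1)
  tfae_have 3 → 4 := fun h1 => kN4 (man_bdd f Es Eu hA g hg h hc hh h1)
  tfae_have 4 → 6 := k46
  tfae_have 6 → 5 := fun h1 => h1.1
  tfae_have 5 → 1 := fun h1 => k14.2 (kc h1)
  tfae_have 5 → 2 := fun h1 => k24.2 (kc h1)
  tfae_have 5 → 3 := by
    intro h1
    obtain ⟨N, hN⟩ := kc h1
    exact ⟨N, fun x => (Set.encard_le_encard fun y hy => hy.1).trans (hN (h x))⟩
  tfae_finish

end manifold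

end Pool.Agent.X183.EFac
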